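import Pool.Agent.Y485.HS.Stm

/-!
Project HS (helper485): the area formula with signs (J3).
-/

set_option autoImplicit false
set_option linter.unusedSectionVars false

open MeasureTheory Set Metric Filter Topology
open scoped ENNReal NNReal

namespace Pool.Agent.Y356.HS

open Pool.Agent.Y485.HS

/-! ### Sums of indicators -/

section count

variable {α : Type} [MeasurableSpace α] {μ : Measure α} {ι : Type} [Countable ι]

/-- the real function `s i` on `V i` -/
noncomputable def hh (V : ι → Set α) (s : ι → ℤ) (i : ι) (y : α) : ℝ :=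
  (V i).indicator (fun _ => (s i : ℝ)) y

theorem hh_int {V : ι → Set α} (hV : ∀ i, MeasurableSet (V i)) (hfin : ∀ i, μ (V i) ≠ ∞)
    (s : ι → ℤ) (i : ι) : Integrable (hh V s i) μ := by
  unfold hh
  rw [integrable_indicator_iff (hV i)]
  exact integrableOn_const (hfin i)

theorem enorm_hh_le {V : ι → Set α} {s : ι → ℤ} (hs : ∀ i, |s i| ≤ 1) (i : ι) (y : α) :
    ‖hh V s i y‖ₑ ≤ (V i).indicator (fun _ => (1 : ℝ≥0∞)) y := by
  unfold hh
  by_cases h : y ∈ V i
  · rw [indicator_of_mem h, indicator_of_mem h, Real.enorm_eq_ofReal_abs]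
    rw [← ENNReal.ofReal_one]
    apply ENNReal.ofReal_le_ofReal
    exact_mod_cast hs i
  · rw [indicator_of_notMem h, indicator_of_notMem h, enorm_zero]

theorem abs_hh_le {V : ι → Set α} {s : ι → ℤ} (hs : ∀ i, |s i| ≤ 1) (i : ι) (y : α) :
    |hh V s i y| ≤ (V i).indicator (fun _ => (1 : ℝ)) y := by
  unfold hh
  by_cases h : y ∈ V i
  · rw [indicator_of_mem h, indicator_of_mem h]
    exact_mod_cast hs i
  · rw [indicator_of_notMem h, indicator_of_notMem h, abs_zero]

/-- the sum of the indicators -/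
noncomputable def dd (V : ι → Set α) (s : ι → ℤ) (y : α) : ℤ :=
  ∑ᶠ i, (V i).indicator (fun _ => s i) y

theorem supp_sub {V : ι → Set α} {s : ι → ℤ} {y : α} (hy : {i | y ∈ V i}.Finite) :
    (Function.support fun i => (V i).indicator (fun _ => s i) y).Finite := by
  refine hy.subset fun i hi => ?_
  by_contra h
  have h' : y ∉ V i := h
  exact hi (indicator_of_notMem h' _)

/-- the support of the real functions -/
theorem supp_hh {V : ι → Set α} {s : ι → ℤ} {y : α} (hy : {i | y ∈ V i}.Finite) :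
    (Function.support fun i => hh V s i y).Finite := by
  refine hy.subset fun i hi => ?_
  by_contra h
  have h' : y ∉ V i := h
  have h2 : hh V s i y = 0 := by
    unfold hh
    exact indicator_of_notMem h' _
  exact hi h2

theorem dd_eq {V : ι → Set α} {s : ι → ℤ} {y : α} (hy : {i | y ∈ V i}.Finite) :
    (dd V s y : ℝ) = ∑' i, hh V s i y := by
  have h1 : (Function.support fun i => hh V s i y).Finite := supp_hh hy
  rw [tsum_eq_finsum h1]
  unfold dd
  have h2 := (Int.castAddHom ℝ).map_finsum (supp_sub (s := s) hy)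
  change ((∑ᶠ i, (V i).indicator (fun _ => s i) y : ℤ) : ℝ) =
    ∑ᶠ i, (((V i).indicator (fun _ => s i) y : ℤ) : ℝ) at h2
  rw [h2]
  refine finsum_congr fun i => ?_
  unfold hh
  by_cases h : y ∈ V i
  · rw [indicator_of_mem h, indicator_of_mem h]
  · rw [indicator_of_notMem h, indicator_of_notMem h, Int.cast_zero]

theorem ae_fin {V : ι → Set α} (hsum : ∑' i, μ (V i) ≠ ∞) : ∀ᵐ y ∂μ, {i | y ∈ V i}.Finite :=
  ae_finite_setOfPred_mem hsum

theorem dd_int {V : ι → Set α} (hV : ∀ i, MeasurableSet (V i)) (hsum : ∑' i, μ (V i) ≠ ∞)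
    {s : ι → ℤ} (hs : ∀ i, |s i| ≤ 1) : Integrable (fun y => (dd V s y : ℝ)) μ := by
  have hfin : ∀ i, μ (V i) ≠ ∞ := fun i => ENNReal.ne_top_of_tsum_ne_top hsum i
  have hae : ∀ᵐ y ∂μ, (dd V s y : ℝ) = ∑' i, hh V s i y := by
    filter_upwards [ae_fin hsum] with y hy
    exact dd_eq hy
  rw [integrable_congr hae]
  refine ⟨?_, ?_⟩
  · refine aestronglyMeasurable_of_tendsto_ae (u := (atTop : Filter (Finset ι)))
      (f := fun t y => ∑ i ∈ t, hh V s i y) (fun t => ?_) ?_
    · exact Finset.aestronglyMeasurable_fun_sum t (fun i _ => (hh_int hV hfin s i).1)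
    · filter_upwards [ae_fin hsum] with y hy
      have h1 : (Function.support fun i => hh V s i y).Finite := supp_hh hy
      have h7 : Summable (fun i => hh V s i y) := summable_of_hasFiniteSupport h1
      exact h7.hasSum
  · unfold HasFiniteIntegral
    calc ∫⁻ y, ‖∑' i, hh V s i y‖ₑ ∂μ ≤ ∫⁻ y, ∑' i, (V i).indicator (fun _ => (1 : ℝ≥0∞)) y ∂μ := by
          apply lintegral_mono_ae
          filter_upwards [ae_fin hsum] with y hy
          have h1 : (Function.support fun i => hh V s i y).Finite := supp_hh hy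
          rw [tsum_eq_sum (s := h1.toFinset) (fun i hi => by
            by_contra hne
            exact hi (h1.mem_toFinset.2 hne))]
          refine (enorm_sum_le _ _).trans ?_
          refine (Finset.sum_le_sum fun i _ => enorm_hh_le hs i y).trans ?_
          exact ENNReal.sum_le_tsum _
      _ = ∑' i, μ (V i) := by
          rw [lintegral_tsum (fun i => (measurable_const.indicator (hV i)).aemeasurable)]
          refine tsum_congr fun i => ?_
          rw [lintegral_indicator (hV i), lintegral_const, one_mul, Measure.restrict_apply_univ]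
      _ < ∞ := hsum.lt_top

theorem dd_sum {V : ι → Set α} (hV : ∀ i, MeasurableSet (V i)) (hsum : ∑' i, μ (V i) ≠ ∞)
    {s : ι → ℤ} (hs : ∀ i, |s i| ≤ 1) (φ : α → ℝ) (hφ : AEStronglyMeasurable φ μ) (C : ℝ)
    (hC : ∀ y, |φ y| ≤ C) :
    HasSum (fun i => (s i : ℝ) * ∫ y in V i, φ y ∂μ) (∫ y, φ y * (dd V s y : ℝ) ∂μ) := by
  have hfin : ∀ i, μ (V i) ≠ ∞ := fun i => ENNReal.ne_top_of_tsum_ne_top hsum i
  have hC0 : ∀ y : α, 0 ≤ C := fun y => (abs_nonneg _).trans (hC y)
  have h1 : ∀ i, Integrable (fun y => φ y * hh V s i y) μ := fun i =>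
    (hh_int hV hfin s i).bdd_mul hφ (Eventually.of_forall fun y => by
      rw [Real.norm_eq_abs]; exact hC y)
  have h2 : Summable fun i => ∫ y, ‖φ y * hh V s i y‖ ∂μ := by
    refine Summable.of_nonneg_of_le (fun i => integral_nonneg fun y => norm_nonneg _) (fun i => ?_)
      ((ENNReal.summable_toReal hsum).mul_left |C|)
    have h3 : ∫ y, ‖φ y * hh V s i y‖ ∂μ ≤ ∫ y, |C| * (V i).indicator (fun _ => (1 : ℝ)) y ∂μ := by
      refine integral_mono (h1 i).norm ?_ (fun y => ?_)
      · refine Integrable.const_mul ?_ _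
        rw [integrable_indicator_iff (hV i)]
        exact integrableOn_const (hfin i)
      · change ‖φ y * hh V s i y‖ ≤ |C| * (V i).indicator (fun _ => (1 : ℝ)) y
        rw [norm_mul, Real.norm_eq_abs, Real.norm_eq_abs]
        exact mul_le_mul ((hC y).trans (le_abs_self C)) (abs_hh_le hs i y) (abs_nonneg _)
          (abs_nonneg _)
    refine h3.trans (le_of_eq ?_)
    rw [integral_const_mul, integral_indicator (hV i), setIntegral_const, smul_eq_mul, mul_one]
    rfl
  have h3 := hasSum_integral_of_summable_integral_norm h1 h2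
  have h4 : ∫ y, (∑' i, φ y * hh V s i y) ∂μ = ∫ y, φ y * (dd V s y : ℝ) ∂μ := by
    refine integral_congr_ae ?_
    filter_upwards [ae_fin hsum] with y hy
    rw [tsum_mul_left, dd_eq hy]
  rw [h4] at h3
  have h6 : (fun i => (s i : ℝ) * ∫ y in V i, φ y ∂μ) = fun i => ∫ y, φ y * hh V s i y ∂μ := by
    funext i
    have h5 : (fun y => φ y * hh V s i y) = (V i).indicator (fun y => (s i : ℝ) * φ y) := by
      funext y
      unfold hh
      by_cases h : y ∈ V i
      · rw [indicator_of_mem h, indicator_of_mem h, mul_comm]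
      · rw [indicator_of_notMem h, indicator_of_notMem h, mul_zero]
    rw [h5, integral_indicator (hV i), integral_const_mul]
  rw [h6]
  exact h3

end count

/-! ### Pieces of injectivity -/

theorem inj_pieces {n : ℕ} (F : E n → E n) (D : E n → (E n →L[ℝ] E n)) (S : Set (E n))
    (hD : ∀ x ∈ S, HasFDerivWithinAt F (D x) S x) (hdet : ∀ x ∈ S, (D x).det ≠ 0) :
    ∃ t : ℕ → Set (E n), Pairwise (Function.onFun Disjoint t) ∧ (∀ i, MeasurableSet (t i)) ∧
      S ⊆ (⋃ i, t i) ∧ ∀ i, InjOn F (S ∩ t i) := by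
  classical
  set r : (E n →L[ℝ] E n) → ℝ≥0 := fun A =>
    if h : A.det ≠ 0 then
      (if 0 < ‖((A.toContinuousLinearEquivOfDetNeZero h).symm : E n →L[ℝ] E n)‖₊ then
        ‖((A.toContinuousLinearEquivOfDetNeZero h).symm : E n →L[ℝ] E n)‖₊⁻¹ / 2 else 1) else 1
    with hr
  have rpos : ∀ A, r A ≠ 0 := by
    intro A
    simp only [hr]
    split_ifs with h1 h2
    · have h3 := inv_pos.2 h2
      exact (div_pos h3 two_pos).ne'
    · exact one_ne_zero
    · exact one_ne_zero
  obtain ⟨t, A, h1, h2, h3, h4, h5⟩ :=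
    exists_partition_approximatesLinearOn_of_hasFDerivWithinAt F S D hD r rpos
  refine ⟨t, h1, h2, h3, fun i => ?_⟩
  rcases S.eq_empty_or_nonempty with he | hne
  · rw [he, empty_inter]
    exact injOn_empty F
  · obtain ⟨y, hy, hA⟩ := h5 hne i
    have hd : (A i).det ≠ 0 := by
      rw [hA]
      exact hdet y hy
    have h6 := h4 i
    set e := (A i).toContinuousLinearEquivOfDetNeZero hd with he
    have hcoe : (e : E n →L[ℝ] E n) = A i :=
      ContinuousLinearMap.coe_toContinuousLinearEquivOfDetNeZero _ hd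
    rw [← hcoe] at h6
    refine ApproximatesLinearOn.injOn h6 ?_
    rcases ContinuousLinearEquiv.subsingleton_or_nnnorm_symm_pos e with h7 | h7
    · exact Or.inl h7
    · right
      have h8 : r (e : E n →L[ℝ] E n) = ‖(e.symm : E n →L[ℝ] E n)‖₊⁻¹ / 2 := by
        rw [hcoe]
        simp only [hr]
        rw [dif_pos hd, if_pos h7]
      rw [h8]
      exact NNReal.half_lt_self (inv_pos.2 h7).ne'

/-- the sign -/
def sg (b : Bool) : ℤ := cond b 1 (-1)

theorem sg_abs (b : Bool) : |sg b| ≤ 1 := by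
  cases b <;> simp [sg]

theorem sg_mul_abs {b : Bool} {x : ℝ} (h : 0 < (sg b : ℝ) * x) : (sg b : ℝ) * |x| = x := by
  cases b with
  | true =>
    simp only [sg, cond_true, Int.cast_one, one_mul] at h ⊢
    exact abs_of_pos h
  | false =>
    simp only [sg, cond_false, Int.cast_neg, Int.cast_one, neg_mul, one_mul] at h ⊢
    rw [abs_of_neg (by linarith)]
    ring

theorem sg_sign {b : Bool} {x : ℝ} (h : 0 < (sg b : ℝ) * x) :
    ((SignType.sign x : SignType) : ℤ) = sg b := by
  cases b with
  | true =>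
    simp only [sg, cond_true, Int.cast_one, one_mul] at h ⊢
    rw [sign_pos h]
    rfl
  | false =>
    simp only [sg, cond_false, Int.cast_neg, Int.cast_one, neg_mul, one_mul] at h ⊢
    rw [sign_neg (by linarith)]
    rfl

/-- a countable family of pieces -/
structure Pcs {n : ℕ} (F : E n → E n) (D : E n → (E n →L[ℝ] E n)) (U : Set (E n))
    (P : ℕ × Bool × ℕ → Set (E n)) : Prop where
  meas : ∀ p, MeasurableSet (P p)
  disj : Pairwise (Function.onFun Disjoint P)
  der : ∀ p, ∀ x ∈ P p, HasFDerivWithinAt F (D x) (P p) x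
  inj : ∀ p, InjOn F (P p)
  sgn : ∀ p, ∀ x ∈ P p, 0 < (sg p.2.1 : ℝ) * (D x).det
  mem : ∀ x, x ∈ (⋃ p, P p) ↔ x ∈ U ∧ (D x).det ≠ 0

theorem pieces {n : ℕ} (F : E n → E n) (D : E n → (E n →L[ℝ] E n)) (A : ℕ → Set (E n))
    (hA : ∀ m, MeasurableSet (A m)) (hD : Measurable D)
    (hder : ∀ m, ∀ x ∈ A m, HasFDerivWithinAt F (D x) (A m) x) :
    ∃ P, Pcs F D (⋃ m, A m) P := by
  have hdet : Measurable fun x => (D x).det :=
    ContinuousLinearMap.continuous_det.measurable.comp hD
  set S : ℕ → Bool → Set (E n) := fun m b =>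
    disjointed A m ∩ {x | 0 < (sg b : ℝ) * (D x).det} with hS
  have hSA : ∀ m b, S m b ⊆ A m := fun m b => inter_subset_left.trans (disjointed_subset A m)
  have hSm : ∀ m b, MeasurableSet (S m b) := fun m b =>
    (MeasurableSet.disjointed hA m).inter
      (measurableSet_lt measurable_const (hdet.const_mul _))
  have hSD : ∀ m b, ∀ x ∈ S m b, HasFDerivWithinAt F (D x) (S m b) x := fun m b x hx =>
    (hder m x (hSA m b hx)).mono (hSA m b)
  have hSdet : ∀ m b, ∀ x ∈ S m b, (D x).det ≠ 0 := by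
    intro m b x hx h
    have h1 : 0 < (sg b : ℝ) * (D x).det := hx.2
    rw [h, mul_zero] at h1
    exact lt_irrefl _ h1
  choose t ht1 ht2 ht3 ht4 using fun m b => inj_pieces F D (S m b) (hSD m b) (hSdet m b)
  have hex : ∀ x (b : Bool), 0 < (sg b : ℝ) * (D x).det →
      ∀ b' : Bool, 0 < (sg b' : ℝ) * (D x).det → b = b' := by
    intro x b h b' h'
    have e1 := sg_sign h
    have e2 := sg_sign h'
    rw [e1] at e2
    cases b <;> cases b' <;> simp [sg] at e2 ⊢
  refine ⟨fun p => S p.1 p.2.1 ∩ t p.1 p.2.1 p.2.2, ?_, ?_, ?_, ?_, ?_, ?_⟩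
  · exact fun p => (hSm _ _).inter (ht2 _ _ _)
  · rintro ⟨m, b, i⟩ ⟨m', b', i'⟩ hne
    change Disjoint (S m b ∩ t m b i) (S m' b' ∩ t m' b' i')
    rw [Set.disjoint_left]
    rintro x ⟨⟨h1, h2⟩, h3⟩ ⟨⟨h1', h2'⟩, h3'⟩
    have em : m = m' := by
      by_contra hm
      exact Set.disjoint_left.1 (disjoint_disjointed A hm) h1 h1'
    subst em
    have eb : b = b' := hex x b h2 b' h2'
    subst eb
    have ei : i = i' := by
      by_contra hi
      exact Set.disjoint_left.1 (ht1 m b hi) h3 h3'
    subst ei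
    exact hne rfl
  · exact fun p x hx => (hSD _ _ x hx.1).mono inter_subset_left
  · exact fun p => ht4 _ _ _
  · exact fun p x hx => hx.1.2
  · intro x
    rw [mem_iUnion]
    constructor
    · rintro ⟨p, hp⟩
      exact ⟨mem_iUnion.2 ⟨p.1, hSA _ _ hp.1⟩, hSdet _ _ x hp.1⟩
    · rintro ⟨h1, h2⟩
      rw [← iUnion_disjointed, mem_iUnion] at h1
      obtain ⟨m, hm⟩ := h1
      obtain ⟨b, hb⟩ : ∃ b : Bool, 0 < (sg b : ℝ) * (D x).det := by
        rcases lt_or_gt_of_ne h2 with h | h
        · exact ⟨false, by simp only [sg, cond_false, Int.cast_neg, Int.cast_one]; linarith⟩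
        · exact ⟨true, by simp only [sg, cond_true, Int.cast_one]; linarith⟩
      have hx : x ∈ S m b := ⟨hm, hb⟩
      obtain ⟨i, hi⟩ := mem_iUnion.1 (ht3 m b hx)
      exact ⟨(m, b, i), hx, hi⟩

/-! ### The area formula -/

theorem area : S_AREA := by
  intro n F D A hA hmono hD hder hfin
  classical
  obtain ⟨P, hP⟩ := pieces F D A hA hD hder
  set UA : Set (E n) := ⋃ m, A m with hUA
  have hUm : MeasurableSet UA := MeasurableSet.iUnion hA
  have hdet : Measurable fun x => (D x).det :=
    ContinuousLinearMap.continuous_det.measurable.comp hD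
  set V : ℕ × Bool × ℕ → Set (E n) := fun p => F '' P p with hV
  have hVm : ∀ p, MeasurableSet (V p) := fun p =>
    measurable_image_of_fderivWithin (hP.meas p) (hP.der p) (hP.inj p)
  have hPU : (⋃ p, P p) ⊆ UA := fun x hx => ((hP.mem x).1 hx).1
  have hsum : ∑' p, (volume : Measure (E n)) (V p) ≠ ∞ := by
    have h1 : ∑' p, (volume : Measure (E n)) (V p) =
        ∫⁻ x in ⋃ p, P p, ‖(D x).det‖ₑ := by
      rw [lintegral_iUnion hP.meas hP.disj]
      refine tsum_congr fun p => ?_
      rw [hV]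
      change volume (F '' P p) = _
      rw [← lintegral_abs_det_fderiv_eq_addHaar_image volume (hP.meas p) (hP.der p) (hP.inj p)]
      refine lintegral_congr fun x => ?_
      rw [Real.enorm_eq_ofReal_abs]
    rw [h1]
    exact ((lintegral_mono_set hPU).trans_lt hfin).ne
  set s : ℕ × Bool × ℕ → ℤ := fun p => sg p.2.1 with hs
  have hs1 : ∀ p, |s p| ≤ 1 := fun p => sg_abs _
  refine ⟨dd V s, dd_int hVm hsum hs1, ?_, ?_⟩
  · intro φ hφ hφc
    obtain ⟨C, hC⟩ := hφ.bounded_above_of_compact_support hφc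
    have h1 := dd_sum hVm hsum hs1 φ hφ.aestronglyMeasurable C (fun y => by
      rw [← Real.norm_eq_abs]; exact hC y)
    -- integrability of the left side
    have hFm : AEStronglyMeasurable (fun x => φ (F x)) (volume.restrict UA) := by
      rw [hUA, aestronglyMeasurable_iUnion_iff]
      intro m
      have hc : ContinuousOn F (A m) := fun x hx => (hder m x hx).continuousWithinAt
      exact (hφ.comp_continuousOn hc).aestronglyMeasurable (hA m)
    have hDi : IntegrableOn (fun x => (D x).det) UA := ⟨hdet.aestronglyMeasurable, hfin⟩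
    have hint : IntegrableOn (fun x => φ (F x) * (D x).det) UA :=
      hDi.bdd_mul hFm (Eventually.of_forall fun x => hC (F x))
    have h2 := hasSum_integral_iUnion hP.meas hP.disj (hint.mono_set hPU)
    have h3 : ∀ p, (s p : ℝ) * ∫ y in V p, φ y = ∫ x in P p, φ (F x) * (D x).det := by
      intro p
      change (s p : ℝ) * ∫ y in F '' P p, φ y = _
      rw [integral_image_eq_integral_abs_det_fderiv_smul volume (hP.meas p) (hP.der p) (hP.inj p),
        ← integral_const_mul]
      refine setIntegral_congr_fun (hP.meas p) fun x hx => ?_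
      change (s p : ℝ) * (|(D x).det| • φ (F x)) = φ (F x) * (D x).det
      have h4 := sg_mul_abs (hP.sgn p x hx)
      rw [smul_eq_mul]
      calc (s p : ℝ) * (|(D x).det| * φ (F x)) = φ (F x) * ((sg p.2.1 : ℝ) * |(D x).det|) := by
            change (sg p.2.1 : ℝ) * _ = _
            ring
        _ = _ := by rw [h4]
    have h4 := h1.unique (by simpa only [h3] using h2)
    rw [h4]
    refine setIntegral_eq_of_subset_of_forall_sdiff_eq_zero hUm hPU fun x hx => ?_
    have h5 : (D x).det = 0 := by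
      by_contra h
      exact hx.2 ((hP.mem x).2 ⟨hx.1, h⟩)
    rw [h5, mul_zero]
  · intro N hN
    have hnull : ∀ᵐ y, ∀ p, y ∉ F '' (P p ∩ N) := by
      rw [ae_all_iff]
      intro p
      have h1 : (volume : Measure (E n)) (F '' (P p ∩ N)) = 0 := by
        refine addHaar_image_eq_zero_of_differentiableOn_of_addHaar_eq_zero volume ?_
          (measure_mono_null inter_subset_right hN)
        exact fun x hx => ((hP.der p x hx.1).mono inter_subset_left).differentiableWithinAt
      exact measure_eq_zero_iff_ae_notMem.1 h1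
    filter_upwards [ae_fin hsum, hnull] with y hy hyN
    set q : ℕ × Bool × ℕ → E n := fun p => if h : y ∈ V p then h.choose else 0 with hq
    have hq1 : ∀ p, y ∈ V p → q p ∈ P p ∧ F (q p) = y := by
      intro p hp
      simp only [hq]
      rw [dif_pos hp]
      exact hp.choose_spec
    have hq2 : ∀ p, y ∈ V p → q p ∉ N := fun p hp hN' =>
      hyN p ⟨q p, ⟨(hq1 p hp).1, hN'⟩, (hq1 p hp).2⟩
    have hqi : Set.InjOn q (hy.toFinset : Set (ℕ × Bool × ℕ)) := by
      intro p hp p' hp' h
      rw [Finset.mem_coe, hy.mem_toFinset] at hp hp'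
      by_contra hne
      exact Set.disjoint_left.1 (hP.disj hne) (hq1 p hp).1 (h ▸ (hq1 p' hp').1)
    refine ⟨hy.toFinset.image q, fun x => ?_, ?_⟩
    · rw [Finset.mem_image]
      constructor
      · rintro ⟨p, hp, rfl⟩
        rw [hy.mem_toFinset] at hp
        have h1 := (hP.mem (q p)).1 (mem_iUnion.2 ⟨p, (hq1 p hp).1⟩)
        exact ⟨h1.1, hq2 p hp, h1.2, (hq1 p hp).2⟩
      · rintro ⟨h1, h2, h3, h4⟩
        obtain ⟨p, hp⟩ := mem_iUnion.1 ((hP.mem x).2 ⟨h1, h3⟩)
        have h5 : y ∈ V p := ⟨x, hp, h4⟩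
        refine ⟨p, hy.mem_toFinset.2 h5, ?_⟩
        exact hP.inj p (hq1 p h5).1 hp ((hq1 p h5).2.trans h4.symm)
    · rw [Finset.sum_image hqi]
      unfold dd
      rw [finsum_eq_sum_of_support_subset (s := hy.toFinset) _ (fun p hp => by
        rw [Finset.mem_coe, hy.mem_toFinset]
        by_contra h
        have h' : y ∉ V p := h
        exact hp (indicator_of_notMem h' _))]
      refine Finset.sum_congr rfl fun p hp => ?_
      rw [hy.mem_toFinset] at hp
      have hp' : y ∈ V p := hp
      rw [indicator_of_mem hp', sg_sign (hP.sgn p _ (hq1 p hp').1)]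

end Pool.Agent.Y356.HS
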